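import Mathlib
import Pool.Agent.H286Z.Roots.Final

set_option autoImplicit false

namespace Pool.Agent.Results.MP_6562b9_an.WeakEndpoint

open Set MeasureTheory

/-- Endpoint weak type estimate for the derivative of a continuous root, with exponent
`p = n / (n - 1)`, so that `1 / p = (n - 1) / n`. -/
theorem result : ∀ n : ℕ, 2 ≤ n → ∃ C : ℝ, 0 ≤ C ∧
    ∀ (α β : ℝ), α < β → ∀ (a : ℕ → ℝ → ℂ) (A : ℝ), 0 ≤ A →
    (∀ j ∈ Finset.Icc 1 n, ContDiffOn ℝ (n - 1 : ℕ) (a j) (Icc α β) ∧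
      (∀ k ≤ n - 1, ∀ t ∈ Icc α β, ‖iteratedDerivWithin k (a j) (Icc α β) t‖ ≤ A ^ j) ∧
      ∀ s ∈ Icc α β, ∀ t ∈ Icc α β, ‖iteratedDerivWithin (n - 1) (a j) (Icc α β) s -
        iteratedDerivWithin (n - 1) (a j) (Icc α β) t‖ ≤ A ^ j * |s - t|) →
    ∀ l : ℝ → ℂ, ContinuousOn l (Ioo α β) →
    (∀ t ∈ Ioo α β, l t ^ n + ∑ j ∈ Finset.Icc 1 n, a j t * l t ^ (n - j) = 0) →
    ∀ s : ℝ, 0 < s →
      ENNReal.ofReal s * volume {t | t ∈ Ioo α β ∧ s < ‖deriv l t‖} ^ (((n : ℝ) - 1) / n) ≤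
        ENNReal.ofReal (C * max 1 ((β - α) ^ (((n : ℝ) - 1) / n)) * A) := by
  intro n hn
  obtain ⟨n, rfl⟩ : ∃ m, n = m + 1 := ⟨n - 1, by omega⟩
  have hn' : (0 : ℝ) < n := by exact_mod_cast (by omega : 0 < n)
  obtain ⟨K, hK, h⟩ := Pool.Agent.H286Z.Roots.level_sets n (p := (n + 1) / n) (by positivity)
    (le_of_eq (by field_simp))
  have e : (((n + 1 : ℕ) : ℝ) - 1) / (n + 1 : ℕ) = n / (n + 1) := by push_cast; ring
  rw [e]
  have he : (0 : ℝ) ≤ n / (n + 1) := by positivity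
  refine ⟨K ^ ((n : ℝ) / (n + 1)), by positivity, fun α β hab a A hA ha l hl hr s hs => ?_⟩
  have h1 := ENNReal.rpow_le_rpow (h α β hab a A hA ha l hl hr s hs) he
  refine (mul_le_mul_right h1 _).trans (le_of_eq ?_)
  rw [ENNReal.ofReal_rpow_of_nonneg (by positivity) he, ← ENNReal.ofReal_mul hs.le,
    Real.mul_rpow (by positivity) (by positivity), Real.mul_rpow hK (by positivity),
    ← Real.rpow_mul (by positivity)]
  have e2 : ((n : ℝ) + 1) / n * (n / (n + 1)) = 1 := by field_simp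
  have e3 : max 1 (β - α) ^ ((n : ℝ) / (n + 1)) = max 1 ((β - α) ^ ((n : ℝ) / (n + 1))) := by
    rcases le_total 1 (β - α) with h2 | h2
    · rw [max_eq_right h2, max_eq_right (Real.one_le_rpow h2 he)]
    · rw [max_eq_left h2, max_eq_left (Real.rpow_le_one (by linarith) h2 he), Real.one_rpow]
  rw [e2, e3, Real.rpow_one]
  congr 1
  field_simp

end Pool.Agent.Results.MP_6562b9_an.WeakEndpoint
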